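import Pool.Agent.H11.NY.Targets

/-!
Module AC of ny_modules (MP_9b2842_al): the extraspecial case, a contradiction to `Rel`.
-/

set_option autoImplicit false

namespace Pool.Agent.H60.NY.AC

open Pool.Agent.H11.NY

section

variable {L : Type} [Group L] {K V : Type} [Field K] [AddCommGroup V] [Module K V]

/-- conjugation by `ρ g` preserves the span of `ρ M` -/
theorem conj_mem (ρ : L →* Module.End K V) (M : Subgroup L) (hM : M.Normal)
    (A : Subalgebra K (Module.End K V))
    (hA : Subalgebra.toSubmodule A = Submodule.span K {y | ∃ x ∈ M, y = ρ x})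
    (g : L) {y : Module.End K V} (hy : y ∈ A) : ρ g * y * ρ g⁻¹ ∈ A := by
  have hy' : y ∈ Submodule.span K {y | ∃ x ∈ M, y = ρ x} := by
    rw [← hA]; exact hy
  clear hy
  have key : ρ g * y * ρ g⁻¹ ∈ Submodule.span K {y | ∃ x ∈ M, y = ρ x} := by
    induction hy' using Submodule.span_induction with
    | mem x hx =>
      obtain ⟨m, hm, rfl⟩ := hx
      apply Submodule.subset_span
      exact ⟨g * m * g⁻¹, hM.conj_mem m hm g, by rw [map_mul, map_mul]⟩
    | zero => simp
    | add x y _ _ h1 h2 => rw [mul_add, add_mul]; exact Submodule.add_mem _ h1 h2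
    | smul c x _ h => rw [mul_smul_comm, smul_mul_assoc]; exact Submodule.smul_mem _ c h
  rw [← hA] at key
  exact key

/-- the basic relation -/
theorem rel_one (ρ : L →* Module.End K V) (M : Subgroup L) (hM : M.Normal) {d : ℕ}
    (A : Subalgebra K (Module.End K V)) (Θ : A ≃ₐ[K] Module.End K (Fin d → K))
    (hA : Subalgebra.toSubmodule A = Submodule.span K {y | ∃ x ∈ M, y = ρ x})
    (g : L) (u ui : Module.End K (Fin d → K)) (h1 : u * ui = 1)
    (H : ∀ y y' : A, (y' : Module.End K V) * ρ g = ρ g * (y : Module.End K V) →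
      Θ y' * u = u * Θ y) (y : A) :
    ρ g * (y : Module.End K V) =
      ((Θ.symm u : A) : Module.End K V) * y * ((Θ.symm ui : A) : Module.End K V) * ρ g := by
  have hginv : ρ g⁻¹ * ρ g = 1 := by rw [← map_mul, inv_mul_cancel, map_one]
  have hm := conj_mem ρ M hM A hA g y.2
  have h2 := H y ⟨ρ g * y * ρ g⁻¹, hm⟩ (by
    show ρ g * (y : Module.End K V) * ρ g⁻¹ * ρ g = _
    rw [mul_assoc, hginv, mul_one])
  have h3 : Θ ⟨ρ g * y * ρ g⁻¹, hm⟩ = u * Θ y * ui := by
    obtain ⟨z, hz⟩ : ∃ z, z = Θ ⟨ρ g * y * ρ g⁻¹, hm⟩ := ⟨_, rfl⟩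
    rw [← hz] at h2 ⊢
    rw [← h2, mul_assoc, h1, mul_one]
  have h4 : (⟨ρ g * y * ρ g⁻¹, hm⟩ : A) = Θ.symm u * y * Θ.symm ui := by
    apply Θ.injective
    rw [h3, map_mul, map_mul, AlgEquiv.apply_symm_apply, AlgEquiv.apply_symm_apply]
  have h5 := congrArg (fun z : A => (z : Module.End K V)) h4
  simp only [MulMemClass.coe_mul] at h5
  rw [← h5, mul_assoc, hginv, mul_one]

end

/-- a non-trivial `p`-th root of unity -/
theorem exists_root {K : Type} [Field K] [IsAlgClosed K] {p : ℕ} (hp : p.Prime)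
    (h0 : (p : K) ≠ 0) : ∃ z : K, z ^ p = 1 ∧ z ≠ 1 := by
  haveI : NeZero (p : K) := ⟨h0⟩
  obtain ⟨z, hz⟩ := IsAlgClosed.exists_root (Polynomial.cyclotomic p K) (by
    intro h
    have h1 := Polynomial.degree_cyclotomic p K
    rw [h] at h1
    have h2 : 0 < Nat.totient p := Nat.totient_pos.2 hp.pos
    have h3 : (0 : ℕ) = Nat.totient p := by exact_mod_cast h1
    omega)
  have h1 : IsPrimitiveRoot z p := (Polynomial.isRoot_cyclotomic_iff).1 hz
  exact ⟨z, h1.pow_eq_one, h1.ne_one hp.one_lt⟩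

/-- `q` does not divide `d` -/
theorem not_dvd {L : Type} [Group L] [Finite L] (M Z : Subgroup L) (hZM : Z ≤ M) (r : ℕ)
    (hr : r.Prime)
    (hc : ∀ x ∈ M, ∀ y ∈ M, x * y * x⁻¹ * y⁻¹ ∈ Z) (hpow : ∀ x ∈ M, x ^ r ∈ Z) (d q : ℕ)
    (hq : q.Prime) (hqr : q ≠ r) (hcard : Nat.card M = d * d * Nat.card Z) : ¬ q ∣ d := by
  intro hd
  haveI : (Z.subgroupOf M).Normal := by
    constructor
    intro n hn g
    rw [Subgroup.mem_subgroupOf] at hn ⊢
    have h1 := hc g g.2 n n.2
    have h2 := Z.mul_mem h1 hn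
    simpa using h2
  have h1 : Nat.card (M ⧸ Z.subgroupOf M) * Nat.card (Z.subgroupOf M) = Nat.card M :=
    (Subgroup.card_eq_card_quotient_mul_card_subgroup _).symm
  have h2 : Nat.card (Z.subgroupOf M) = Nat.card Z :=
    Nat.card_congr (Subgroup.subgroupOfEquivOfLe hZM).toEquiv
  have hpos : 0 < Nat.card Z := Nat.card_pos
  have h3 : Nat.card (M ⧸ Z.subgroupOf M) = d * d := by
    rw [h2, hcard] at h1
    exact Nat.eq_of_mul_eq_mul_right hpos h1
  haveI : Fact q.Prime := ⟨hq⟩
  obtain ⟨x, hx⟩ := exists_prime_orderOf_dvd_card' (G := M ⧸ Z.subgroupOf M) q (by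
    rw [h3]; exact Dvd.dvd.mul_right hd d)
  obtain ⟨m, rfl⟩ := QuotientGroup.mk_surjective x
  have h4 : (QuotientGroup.mk m : M ⧸ Z.subgroupOf M) ^ r = 1 := by
    rw [← QuotientGroup.mk_pow, QuotientGroup.eq_one_iff, Subgroup.mem_subgroupOf]
    exact hpow m m.2
  have h5 := orderOf_dvd_of_pow_eq_one h4
  rw [hx] at h5
  exact hqr ((Nat.prime_dvd_prime_iff_eq hq hr).1 h5)

/-- a common eigenvector -/
theorem exists_common {K V : Type} [Field K] [IsAlgClosed K] [AddCommGroup V] [Module K V]
    [Module.Finite K V] (hV : ∃ v : V, v ≠ 0) (s t : Module.End K V) (hst : s * t = t * s) :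
    ∃ (v : V) (x y : K), v ≠ 0 ∧ s v = x • v ∧ t v = y • v := by
  obtain ⟨v1, hv1⟩ := hV
  haveI : Nontrivial V := ⟨v1, 0, hv1⟩
  obtain ⟨x, hx⟩ := Module.End.exists_eigenvalue s
  have hE : Module.End.eigenspace s x ≠ ⊥ := hx
  haveI : Nontrivial (Module.End.eigenspace s x) := Submodule.nontrivial_iff_ne_bot.2 hE
  have hmap : ∀ v ∈ Module.End.eigenspace s x, t v ∈ Module.End.eigenspace s x := by
    intro v hv
    rw [Module.End.mem_eigenspace_iff] at hv ⊢
    have h1 : s (t v) = t (s v) := by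
      have := congrArg (fun f : Module.End K V => f v) hst
      simpa using this
    rw [h1, hv, map_smul]
  obtain ⟨y, hy⟩ := Module.End.exists_eigenvalue (t.restrict hmap)
  obtain ⟨w, hw⟩ := hy.exists_hasEigenvector
  refine ⟨w, x, y, ?_, ?_, ?_⟩
  · intro h
    exact hw.2 (Subtype.ext h)
  · exact Module.End.mem_eigenspace_iff.1 w.2
  · have h1 := hw.apply_eq_smul
    have h2 := congrArg (fun z : Module.End.eigenspace s x => (z : V)) h1
    simpa using h2

/-- `A y A` contains the identity in its span -/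
theorem exists_move {K V : Type} [Field K] [AddCommGroup V] [Module K V] {d : ℕ}
    (A : Subalgebra K (Module.End K V)) (Θ : A ≃ₐ[K] Module.End K (Fin d → K))
    (v' : Fin d → K) (i0 : Fin d) (hi : v' i0 ≠ 0) (v0 : V) (hv0 : v0 ≠ 0) :
    ∃ y1 : A, ((Θ.symm ((LinearMap.proj i0 : (Fin d → K) →ₗ[K] K).smulRight v') : A) :
      Module.End K V) ((y1 : Module.End K V) v0) ≠ 0 := by
  by_contra hcon
  push Not at hcon
  obtain ⟨y, hy⟩ : ∃ y : A, y = Θ.symm ((LinearMap.proj i0 :
    (Fin d → K) →ₗ[K] K).smulRight v') := ⟨_, rfl⟩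
  rw [← hy] at hcon
  let E1 : Fin d → Module.End K (Fin d → K) := fun j =>
    (LinearMap.proj i0 : (Fin d → K) →ₗ[K] K).smulRight ((v' i0)⁻¹ • Pi.single j (1 : K))
  let E2 : Fin d → Module.End K (Fin d → K) := fun j =>
    (LinearMap.proj j : (Fin d → K) →ₗ[K] K).smulRight (Pi.single i0 (1 : K))
  have hone : (1 : Module.End K (Fin d → K)) = ∑ j, E1 j * Θ y * E2 j := by
    apply LinearMap.ext
    intro x
    rw [hy, AlgEquiv.apply_symm_apply]
    rw [LinearMap.sum_apply]
    funext k
    rw [Finset.sum_apply]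
    simp only [Module.End.mul_apply, E1, E2, LinearMap.smulRight_apply, LinearMap.proj_apply,
      Pi.smul_apply, Pi.single_eq_same, smul_eq_mul, mul_one, Module.End.one_apply]
    rw [Finset.sum_eq_single k]
    · rw [Pi.single_eq_same]
      field_simp
    · intro j _ hj
      rw [Pi.single_eq_of_ne (Ne.symm hj)]
      simp
    · intro h
      exact absurd (Finset.mem_univ k) h
  have hone' : (1 : A) = ∑ j, Θ.symm (E1 j) * y * Θ.symm (E2 j) := by
    apply Θ.injective
    rw [map_one, hone, map_sum]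
    apply Finset.sum_congr rfl
    intro j _
    rw [map_mul, map_mul, AlgEquiv.apply_symm_apply, AlgEquiv.apply_symm_apply]
  have h1 := congrArg (fun z : A => (z : Module.End K V) v0) hone'
  simp only [OneMemClass.coe_one, Module.End.one_apply] at h1
  apply hv0
  rw [h1]
  have h2 : ((∑ j, Θ.symm (E1 j) * y * Θ.symm (E2 j) : A) : Module.End K V) v0 =
      ∑ j, ((Θ.symm (E1 j) : A) : Module.End K V) ((y : Module.End K V)
        (((Θ.symm (E2 j) : A) : Module.End K V) v0)) := by
    rw [AddSubmonoidClass.coe_finset_sum, LinearMap.sum_apply]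
    rfl
  rw [h2]
  apply Finset.sum_eq_zero
  intro j _
  rw [hcon, map_zero]

theorem pf_ac : T_AC1 → T_AC2 → T_AC3 → T_AC5 → T_AC := by
  intro hAC1 hAC2 hAC3 hAC5
  intro L _ _ K V _ _ _ _ _ ρ hV M Z r hM hZM hr hZ hcc hpow hcen e q p a h hq hp hqe hpe hqr
    hqK hpK haq ha1 hah hnz hcase hbound hRel
  obtain ⟨d, A, Θ, hd, hcard, hA⟩ := hAC1 L K V ρ hV M Z hM hZM hZ hcc hcen
  have hqd : ¬ q ∣ d := not_dvd M Z hZM r hr hcc hpow d q hq hqr hcard
  obtain ⟨u, w, huw, huq, hcase2, hu, hw⟩ := hAC2 L K V ρ M hM d A Θ hd hA q p a h hq hp hqd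
    haq hah hcase
  -- units
  have hqpos := hq.pos
  have hppos := hp.pos
  have huU : IsUnit u := IsUnit.of_pow_eq_one huq hqpos.ne'
  have hwU : IsUnit w := by
    rcases hcase2 with ⟨_, h2⟩ | ⟨_, _, h2⟩
    · exact IsUnit.of_pow_eq_one h2 hppos.ne'
    · apply IsUnit.of_pow_eq_one (n := q * q) _ (Nat.mul_pos hqpos hqpos).ne'
      rw [pow_mul, h2, huq]
  -- the bound
  have hepos : 0 < e := lt_of_lt_of_le hqpos hqe
  have he6 : 0 < e ^ 6 := pow_pos hepos 6
  have hMpos : 0 < Nat.card M := Nat.card_pos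
  have hZpos : 0 < Nat.card Z := Nat.card_pos
  have hb1 : ∀ t ∈ Subgroup.closure {a, h}, t ≠ 1 →
      Nat.card {x : L // x ∈ M ∧ t * x * t⁻¹ * x⁻¹ ∈ Z} ≤ (Nat.card M - 1) / e ^ 6 := by
    intro t ht ht1
    have h1 := hbound t ht ht1
    rw [Nat.le_div_iff_mul_le he6]
    rw [mul_comm]
    omega
  have hb2 : e ^ 6 * ((Nat.card M - 1) / e ^ 6) < Nat.card M := by
    have := Nat.mul_div_le (Nat.card M - 1) (e ^ 6)
    omega
  have h3 := hAC3 L K V ρ M Z hM hZM hZ hcc d A Θ hd hcard hA a h hah u w huU hwU hu hw _ hb1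
  have h5 := hAC5 K L d q p (Nat.card M) (Nat.card Z) _ e a h u w hd hq hp hqe hpe hqK hpK haq
    ha1 hah hnz huw huq hcase2 hZpos hcard h3 hb2
  clear h3 hb1 hb2 hbound
  -- inverses
  obtain ⟨ui, hui1, hui2⟩ : ∃ ui : Module.End K (Fin d → K), u * ui = 1 ∧ ui * u = 1 := by
    obtain ⟨x, hx⟩ := huU
    exact ⟨x.inv, by rw [← hx]; exact x.val_inv, by rw [← hx]; exact x.inv_val⟩
  obtain ⟨wi, hwi1, hwi2⟩ : ∃ wi : Module.End K (Fin d → K), w * wi = 1 ∧ wi * w = 1 := by
    obtain ⟨x, hx⟩ := hwU
    exact ⟨x.inv, by rw [← hx]; exact x.val_inv, by rw [← hx]; exact x.inv_val⟩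
  have ra := rel_one ρ M hM A Θ hA a u ui hui1 hu
  have rh := rel_one ρ M hM A Θ hA h w wi hwi1 hw
  obtain ⟨U, hU⟩ : ∃ U : A, U = Θ.symm u := ⟨_, rfl⟩
  obtain ⟨W, hW⟩ : ∃ W : A, W = Θ.symm w := ⟨_, rfl⟩
  obtain ⟨U', hU'⟩ : ∃ U' : A, U' = Θ.symm ui := ⟨_, rfl⟩
  obtain ⟨W', hW'⟩ : ∃ W' : A, W' = Θ.symm wi := ⟨_, rfl⟩
  rw [← hU, ← hU'] at ra
  rw [← hW, ← hW'] at rh
  have UU' : (U : Module.End K V) * U' = 1 := by
    have : U * U' = 1 := by rw [hU, hU', ← map_mul, hui1, map_one]
    exact congrArg (fun z : A => (z : Module.End K V)) this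
  have U'U : (U' : Module.End K V) * U = 1 := by
    have : U' * U = 1 := by rw [hU, hU', ← map_mul, hui2, map_one]
    exact congrArg (fun z : A => (z : Module.End K V)) this
  have WW' : (W : Module.End K V) * W' = 1 := by
    have : W * W' = 1 := by rw [hW, hW', ← map_mul, hwi1, map_one]
    exact congrArg (fun z : A => (z : Module.End K V)) this
  have W'W : (W' : Module.End K V) * W = 1 := by
    have : W' * W = 1 := by rw [hW, hW', ← map_mul, hwi2, map_one]
    exact congrArg (fun z : A => (z : Module.End K V)) this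
  have hwui : w * ui = ui * w := by
    calc w * ui = (ui * u) * (w * ui) := by rw [hui2, one_mul]
      _ = ui * (u * w) * ui := by simp only [mul_assoc]
      _ = ui * (w * u) * ui := by rw [huw]
      _ = ui * w * (u * ui) := by simp only [mul_assoc]
      _ = ui * w := by rw [hui1, mul_one]
  have WU' : (W : Module.End K V) * U' = U' * W := by
    have : W * U' = U' * W := by rw [hW, hU', ← map_mul, hwui, map_mul]
    exact congrArg (fun z : A => (z : Module.End K V)) this
  -- the operators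
  obtain ⟨ta, hta⟩ : ∃ ta : Module.End K V, ta = U' * ρ a := ⟨_, rfl⟩
  obtain ⟨th, hth⟩ : ∃ th : Module.End K V, th = W' * ρ h := ⟨_, rfl⟩
  have ta_comm : ∀ y : A, ta * (y : Module.End K V) = y * ta := by
    intro y
    rw [hta, mul_assoc, ra y]
    calc (U' : Module.End K V) * (U * y * U' * ρ a) = (U' * U) * y * U' * ρ a := by
          simp only [mul_assoc]
      _ = y * (U' * ρ a) := by rw [U'U, one_mul, mul_assoc]
  have th_comm : ∀ y : A, th * (y : Module.End K V) = y * th := by
    intro y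
    rw [hth, mul_assoc, rh y]
    calc (W' : Module.End K V) * (W * y * W' * ρ h) = (W' * W) * y * W' * ρ h := by
          simp only [mul_assoc]
      _ = y * (W' * ρ h) := by rw [W'W, one_mul, mul_assoc]
  have Uta : (U : Module.End K V) * ta = ρ a := by
    rw [hta, ← mul_assoc, UU', one_mul]
  have Wth : (W : Module.End K V) * th = ρ h := by
    rw [hth, ← mul_assoc, WW', one_mul]
  have rhU' : ρ h * (U' : Module.End K V) = U' * ρ h := by
    rw [rh U', WU', mul_assoc (U' : Module.End K V), WW', mul_one]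
  have raU' : ρ a * (U' : Module.End K V) = U' * ρ a := by
    rw [ra U', UU', one_mul]
  have rhW' : ρ h * (W' : Module.End K V) = W' * ρ h := by
    rw [rh W', WW', one_mul]
  have rah : ρ a * ρ h = ρ h * ρ a := by rw [← map_mul, ← map_mul, hah]
  have tath : ta * th = th * ta := by
    have h1 : ta * ρ h = ρ h * ta := by
      rw [hta]
      calc (U' : Module.End K V) * ρ a * ρ h = U' * (ρ a * ρ h) := by rw [mul_assoc]
        _ = (U' * ρ h) * ρ a := by rw [rah, mul_assoc]
        _ = ρ h * (U' * ρ a) := by rw [← rhU', mul_assoc]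
    calc ta * th = (ta * W') * ρ h := by rw [hth, mul_assoc]
      _ = (W' * ta) * ρ h := by rw [ta_comm W']
      _ = W' * (ρ h * ta) := by rw [mul_assoc, h1]
      _ = th * ta := by rw [hth, mul_assoc]
  -- powers
  have hui_q : ui ^ q = 1 := by
    have hcu : Commute ui u := hui2.trans hui1.symm
    have h1 : (ui * u) ^ q = ui ^ q * u ^ q := hcu.mul_pow q
    rw [hui2, one_pow, huq, mul_one] at h1
    exact h1.symm
  have U'q : (U' : Module.End K V) ^ q = 1 := by
    have : U' ^ q = 1 := by rw [hU', ← map_pow, hui_q, map_one]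
    exact congrArg (fun z : A => (z : Module.End K V)) this
  have taq : ta ^ q = 1 := by
    have hc : Commute (U' : Module.End K V) (ρ a) := raU'.symm
    rw [hta, hc.mul_pow, U'q, ← map_pow, haq, map_one, one_mul]
  have thc : Commute (W' : Module.End K V) (ρ h) := rhW'.symm
  obtain ⟨v0, η, θ, hv0, hη, hθ⟩ := exists_common hV ta th tath
  -- powers of eigenvalues
  have powv : ∀ (T : Module.End K V) (x : K), T v0 = x • v0 → ∀ n : ℕ,
      (T ^ n) v0 = x ^ n • v0 := by
    intro T x hx n
    induction n with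
    | zero => simp
    | succ n ih => rw [pow_succ, Module.End.mul_apply, hx, map_smul, ih, smul_smul, pow_succ,
        mul_comm]
  have hηq : η ^ q = 1 := by
    have h1 := powv ta η hη q
    rw [taq, Module.End.one_apply] at h1
    have h2 : (η ^ q - 1) • v0 = 0 := by rw [sub_smul, one_smul, ← h1, sub_self]
    rcases smul_eq_zero.1 h2 with h3 | h3
    · exact sub_eq_zero.1 h3
    · exact absurd h3 hv0
  have hη0 : η ≠ 0 := by
    rintro rfl
    rw [zero_pow hqpos.ne'] at hηq
    exact zero_ne_one hηq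
  -- the second root
  have hβ : ∃ ζ β : K, ζ ≠ 1 ∧ θ * β = ζ ∧
      ((h ^ p = 1 ∧ β ^ p = 1) ∨ (p = q ∧ h ^ q = a ∧ β ^ q = η⁻¹)) := by
    obtain ⟨ζ, hζ, hζ1⟩ := exists_root hp hpK
    refine ⟨ζ, ζ * θ⁻¹, hζ1, ?_, ?_⟩
    · have hθ0 : θ ≠ 0 := by
        intro h0
        rw [h0, zero_smul] at hθ
        apply hv0
        have h1 : (W : Module.End K V) (th v0) = ρ h v0 := by
          rw [← Wth]; rfl
        rw [hθ, map_zero] at h1
        have h2 : ρ h⁻¹ (ρ h v0) = v0 := by
          rw [← Module.End.mul_apply, ← map_mul, inv_mul_cancel, map_one, Module.End.one_apply]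
        rw [← h1, map_zero] at h2
        exact h2.symm
      rw [mul_comm ζ, ← mul_assoc, mul_inv_cancel₀ hθ0, one_mul]
    · rcases hcase2 with ⟨h1, h2⟩ | ⟨h1, h2, h3⟩
      · left
        refine ⟨h1, ?_⟩
        have hwi_p : wi ^ p = 1 := by
          have hcu : Commute wi w := hwi2.trans hwi1.symm
          have h4 : (wi * w) ^ p = wi ^ p * w ^ p := hcu.mul_pow p
          rw [hwi2, one_pow, h2, mul_one] at h4
          exact h4.symm
        have W'p : (W' : Module.End K V) ^ p = 1 := by
          have : W' ^ p = 1 := by rw [hW', ← map_pow, hwi_p, map_one]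
          exact congrArg (fun z : A => (z : Module.End K V)) this
        have thp : th ^ p = 1 := by
          rw [hth, thc.mul_pow, W'p, ← map_pow, h1, map_one, one_mul]
        have h5 := powv th θ hθ p
        rw [thp, Module.End.one_apply] at h5
        have h6 : (θ ^ p - 1) • v0 = 0 := by rw [sub_smul, one_smul, ← h5, sub_self]
        have h7 : θ ^ p = 1 := by
          rcases smul_eq_zero.1 h6 with h7 | h7
          · exact sub_eq_zero.1 h7
          · exact absurd h7 hv0
        rw [mul_pow, hζ, inv_pow, h7, inv_one, one_mul]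
      · right
        refine ⟨h1, h2, ?_⟩
        have hwi_q : wi ^ q = ui := by
          have hcu : Commute wi w := hwi2.trans hwi1.symm
          have h4 : (wi * w) ^ q = wi ^ q * w ^ q := hcu.mul_pow q
          rw [hwi2, one_pow, h3] at h4
          calc wi ^ q = wi ^ q * (u * ui) := by rw [hui1, mul_one]
            _ = (wi ^ q * u) * ui := by rw [mul_assoc]
            _ = ui := by rw [← h4, one_mul]
        have W'q : (W' : Module.End K V) ^ q = U' := by
          have : W' ^ q = U' := by rw [hW', ← map_pow, hwi_q, hU']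
          exact congrArg (fun z : A => (z : Module.End K V)) this
        have thq : th ^ q = ta := by
          rw [hth, thc.mul_pow, W'q, ← map_pow, h2, hta]
        have h5 := powv th θ hθ q
        rw [thq, hη] at h5
        have h6 : (η - θ ^ q) • v0 = 0 := by rw [sub_smul, h5, sub_self]
        have h7 : η = θ ^ q := by
          rcases smul_eq_zero.1 h6 with h7 | h7
          · exact sub_eq_zero.1 h7
          · exact absurd h7 hv0
        rw [mul_pow, ← h1, hζ, inv_pow, h1, ← h7, one_mul]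
  obtain ⟨ζ, β, hζ1, hζβ, hβc⟩ := hβ
  obtain ⟨v', hv', huv, hwv⟩ := h5 η⁻¹ β (by rw [inv_pow, hηq, inv_one]) hβc
  obtain ⟨i0, hi0⟩ : ∃ i, v' i ≠ 0 := by
    by_contra hcon
    push Not at hcon
    exact hv' (funext hcon)
  obtain ⟨y1, hy1⟩ := exists_move A Θ v' i0 hi0 v0 hv0
  obtain ⟨y, hy⟩ : ∃ y : A, y = Θ.symm ((LinearMap.proj i0 :
    (Fin d → K) →ₗ[K] K).smulRight v') := ⟨_, rfl⟩
  rw [← hy] at hy1
  have Uy : (U : Module.End K V) * y = η⁻¹ • (y : Module.End K V) := by
    have h1 : U * y = η⁻¹ • y := by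
      apply Θ.injective
      rw [map_mul, map_smul, hU, hy, AlgEquiv.apply_symm_apply, AlgEquiv.apply_symm_apply]
      apply LinearMap.ext
      intro x
      rw [Module.End.mul_apply, LinearMap.smulRight_apply, map_smul, huv, LinearMap.smul_apply,
        LinearMap.smulRight_apply, smul_comm]
    exact congrArg (fun z : A => (z : Module.End K V)) h1
  have Wy : (W : Module.End K V) * y = β • (y : Module.End K V) := by
    have h1 : W * y = β • y := by
      apply Θ.injective
      rw [map_mul, map_smul, hW, hy, AlgEquiv.apply_symm_apply, AlgEquiv.apply_symm_apply]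
      apply LinearMap.ext
      intro x
      rw [Module.End.mul_apply, LinearMap.smulRight_apply, map_smul, hwv, LinearMap.smul_apply,
        LinearMap.smulRight_apply, smul_comm]
    exact congrArg (fun z : A => (z : Module.End K V)) h1
  obtain ⟨v, hv⟩ : ∃ v : V, v = (y : Module.End K V) ((y1 : Module.End K V) v0) := ⟨_, rfl⟩
  rw [← hv] at hy1
  have tav : ta v = η • v := by
    have h1 : ta ((y : Module.End K V) ((y1 : Module.End K V) v0)) =
        (y : Module.End K V) ((y1 : Module.End K V) (ta v0)) := by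
      have h2 := congrArg (fun f : Module.End K V => f ((y1 : Module.End K V) v0)) (ta_comm y)
      have h3 := congrArg (fun f : Module.End K V => f v0) (ta_comm y1)
      simp only [Module.End.mul_apply] at h2 h3
      rw [h2, h3]
    rw [hv, h1, hη, map_smul, map_smul]
  have thv : th v = θ • v := by
    have h1 : th ((y : Module.End K V) ((y1 : Module.End K V) v0)) =
        (y : Module.End K V) ((y1 : Module.End K V) (th v0)) := by
      have h2 := congrArg (fun f : Module.End K V => f ((y1 : Module.End K V) v0)) (th_comm y)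
      have h3 := congrArg (fun f : Module.End K V => f v0) (th_comm y1)
      simp only [Module.End.mul_apply] at h2 h3
      rw [h2, h3]
    rw [hv, h1, hθ, map_smul, map_smul]
  have Uv : (U : Module.End K V) v = η⁻¹ • v := by
    have h2 := congrArg (fun f : Module.End K V => f ((y1 : Module.End K V) v0)) Uy
    simp only [Module.End.mul_apply, LinearMap.smul_apply] at h2
    rw [hv, h2]
  have Wv : (W : Module.End K V) v = β • v := by
    have h2 := congrArg (fun f : Module.End K V => f ((y1 : Module.End K V) v0)) Wy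
    simp only [Module.End.mul_apply, LinearMap.smul_apply] at h2
    rw [hv, h2]
  have rav : ρ a v = v := by
    rw [← Uta, Module.End.mul_apply, tav, map_smul, Uv, smul_smul, mul_inv_cancel₀ hη0,
      one_smul]
  have rhv : ρ h v = ζ • v := by
    rw [← Wth, Module.End.mul_apply, thv, map_smul, Wv, smul_smul, hζβ]
  have rajv : ∀ j : ℕ, ρ (a ^ j) v = v := by
    intro j
    induction j with
    | zero => rw [pow_zero, map_one, Module.End.one_apply]
    | succ j ih => rw [pow_succ, map_mul, Module.End.mul_apply, rav, ih]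
  have h1 := hRel v
  have h2 : ∑ j ∈ Finset.range q, ρ (a ^ j) v = (q : K) • v := by
    rw [Finset.sum_congr rfl (fun j _ => rajv j), Finset.sum_const, Finset.card_range,
      Nat.cast_smul_eq_nsmul]
  rw [h2, map_smul, rhv, smul_smul] at h1
  have h3 : ((q : K) * ζ - q) • v = 0 := by rw [sub_smul, h1, sub_self]
  rcases smul_eq_zero.1 h3 with h4 | h4
  · have h5 : (q : K) * (ζ - 1) = 0 := by rw [mul_sub, mul_one]; exact h4
    rcases mul_eq_zero.1 h5 with h6 | h6
    · exact hqK h6
    · exact hζ1 (sub_eq_zero.1 h6)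
  · exact hy1 h4

end Pool.Agent.H60.NY.AC
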