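import Pool.Agent.H11.NY.Targets

/-!
Module I3 of ny_modules (MP_9b2842_al): from chief factors to the group.
-/

set_option autoImplicit false

open Equiv (Perm)

namespace Pool.Agent.H60.NY.I3

open Pool.Agent.H11.NY

section

variable {H Ω : Type} [Group H] [Fintype Ω] [DecidableEq Ω]

/-- the generating commutators -/
def Gen (ψ : H →* alternatingGroup Ω) (c : ℕ) : Set H :=
  {x | ∃ Δ Δ' : Finset Ω, Disjoint Δ Δ' ∧ c ≤ Δ.card ∧ c ≤ Δ'.card ∧ ∃ D D' : Subgroup H,
    PerfOn ψ Δ D ∧ PerfOn ψ Δ' D' ∧ ∃ d ∈ D, ∃ d' ∈ D', x = d * d' * d⁻¹ * d'⁻¹}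

theorem perf_conj (ψ : H →* alternatingGroup Ω) (y : H) {Δ : Finset Ω} {D : Subgroup H}
    (h : PerfOn ψ Δ D) :
    PerfOn ψ (Δ.map (ψ y : Perm Ω).toEmbedding) (D.map (MulAut.conj y).toMonoidHom) := by
  refine ⟨?_, ?_⟩
  · rw [← Subgroup.map_commutator, h.1]
  · rintro _ ⟨d, hd, rfl⟩ ω hω
    have h1 : (ψ y : Perm Ω).symm ω ∉ Δ := fun hh => hω (Finset.mem_map_equiv.2 hh)
    have h2 := h.2 d hd _ h1
    have h3 : ((ψ ((MulAut.conj y).toMonoidHom d) : alternatingGroup Ω) : Perm Ω) =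
        (ψ y : Perm Ω) * (ψ d : Perm Ω) * (ψ y : Perm Ω)⁻¹ := by
      simp [MulAut.conj_apply]
    rw [h3, Equiv.Perm.mul_apply, Equiv.Perm.mul_apply, Equiv.Perm.inv_def, h2,
      Equiv.apply_symm_apply]

theorem gen_conj (ψ : H →* alternatingGroup Ω) (c : ℕ) (y x : H) (hx : x ∈ Gen ψ c) :
    y * x * y⁻¹ ∈ Gen ψ c := by
  obtain ⟨Δ, Δ', hdis, hc, hc', D, D', hD, hD', d, hd, d', hd', rfl⟩ := hx
  refine ⟨Δ.map (ψ y : Perm Ω).toEmbedding, Δ'.map (ψ y : Perm Ω).toEmbedding, ?_, ?_, ?_,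
    D.map (MulAut.conj y).toMonoidHom, D'.map (MulAut.conj y).toMonoidHom, perf_conj ψ y hD,
    perf_conj ψ y hD', y * d * y⁻¹, ⟨d, hd, rfl⟩, y * d' * y⁻¹, ⟨d', hd', rfl⟩, ?_⟩
  · exact (Finset.disjoint_map _).2 hdis
  · rw [Finset.card_map]; exact hc
  · rw [Finset.card_map]; exact hc'
  · group

theorem closure_normal (ψ : H →* alternatingGroup Ω) (c : ℕ) :
    (Subgroup.closure (Gen ψ c)).Normal := by
  constructor
  intro n hn g
  induction hn using Subgroup.closure_induction with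
  | mem x hx => exact Subgroup.subset_closure (gen_conj ψ c g x hx)
  | one => simp
  | mul x y _ _ h1 h2 =>
    have := Subgroup.mul_mem _ h1 h2
    have h3 : g * (x * y) * g⁻¹ = (g * x * g⁻¹) * (g * y * g⁻¹) := by group
    rw [h3]; exact this
  | inv x _ h1 =>
    have := Subgroup.inv_mem _ h1
    have h3 : g * x⁻¹ * g⁻¹ = (g * x * g⁻¹)⁻¹ := by group
    rw [h3]; exact this

theorem closure_le_ker (ψ : H →* alternatingGroup Ω) (c : ℕ) :
    Subgroup.closure (Gen ψ c) ≤ ψ.ker := by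
  rw [Subgroup.closure_le]
  rintro _ ⟨Δ, Δ', hdis, _, _, D, D', hD, hD', d, hd, d', hd', rfl⟩
  show ψ (d * d' * d⁻¹ * d'⁻¹) = 1
  have h1 : Equiv.Perm.Disjoint (ψ d : Perm Ω) (ψ d' : Perm Ω) := by
    intro ω
    by_cases hω : ω ∈ Δ
    · right
      exact hD'.2 d' hd' ω (fun h => (Finset.disjoint_left.1 hdis) hω h)
    · left
      exact hD.2 d hd ω hω
  have h2 : ψ d * ψ d' = ψ d' * ψ d := Subtype.ext h1.commute.eq
  rw [map_mul, map_mul, map_mul, h2, map_inv, map_inv]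
  group

end

theorem comm_ne {G : Type} [Group G] (K : Subgroup G) [Group.IsSolvable K] (hK : K ≠ ⊥) :
    ⁅K, K⁆ ≠ K := by
  intro h
  haveI : Nontrivial K := (Subgroup.nontrivial_iff_ne_bot K).2 hK
  have h1 : ⁅(⊤ : Subgroup K), ⊤⁆ < ⊤ :=
    Group.IsSolvable.commutator_lt_of_ne_bot (G := K) (H := ⊤) top_ne_bot
  apply h1.ne
  apply Subgroup.map_injective K.subtype_injective
  rw [Subgroup.map_commutator, ← MonoidHom.range_eq_map, Subgroup.range_subtype, h]

/-- the last step -/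
theorem step {H Ω : Type} [Group H] [Finite H] [Fintype Ω] [DecidableEq Ω]
    (ψ : H →* alternatingGroup Ω) (c : ℕ) (J : Subgroup H) (hJ : J.Normal)
    (hsol : Group.IsSolvable J) (hnil : Group.IsNilpotent J) (hker : J ≤ ψ.ker)
    (hI2 : T_I2)
    (hgen : ∀ x ∈ Gen ψ c, x ∈ J)
    (hloc : ∀ ℓ : ℕ, ℓ.Prime → ∀ A B : Subgroup H, A.Normal → B.Normal → B < A → A ≤ ψ.ker →
      IsPGroup ℓ A → (∀ M : Subgroup H, M.Normal → B ≤ M → M ≤ A → M = B ∨ M = A) →
      LocSec ψ c A B)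
    (B1 : Subgroup H) (hB1 : B1.Normal) (hlt : B1 < J)
    (hmax : ∀ M : Subgroup H, M.Normal → B1 ≤ M → M ≤ J → M = B1 ∨ M = J) :
    ∀ x ∈ Gen ψ c, x ∈ B1 := by
  -- `⁅J, J⁆ ≤ B1`
  have hcomm : ⁅J, J⁆ ≤ B1 := by
    have hle : ⁅J, J⁆ ≤ J := Subgroup.commutator_le_right J J
    rcases hmax (⁅J, J⁆ ⊔ B1) inferInstance le_sup_right (sup_le hle hlt.le) with h | h
    · rw [← h]; exact le_sup_left
    · exfalso
      let K : Subgroup (H ⧸ B1) := J.map (QuotientGroup.mk' B1)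
      haveI : Group.IsSolvable K :=
        Group.isSolvable_of_surjective ((QuotientGroup.mk' B1).subgroupMap_surjective J)
      have hK : K ≠ ⊥ := by
        intro hK
        have h1 : J ≤ B1 := by
          intro x hx
          have h2 : (QuotientGroup.mk' B1) x ∈ K := ⟨x, hx, rfl⟩
          rw [hK, Subgroup.mem_bot] at h2
          exact (QuotientGroup.eq_one_iff x).1 h2
        exact absurd h1 (not_le_of_gt hlt)
      apply comm_ne K hK
      show ⁅J.map (QuotientGroup.mk' B1), J.map (QuotientGroup.mk' B1)⁆ =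
        J.map (QuotientGroup.mk' B1)
      rw [← Subgroup.map_commutator]
      have h1 : B1.map (QuotientGroup.mk' B1) = ⊥ := by
        rw [Subgroup.map_eq_bot_iff, QuotientGroup.ker_mk']
      conv_rhs => rw [← h]
      rw [Subgroup.map_sup, h1, sup_bot_eq]
  -- a prime
  have hidx : (B1.subgroupOf J).index ≠ 1 := by
    intro h
    rw [Subgroup.index_eq_one] at h
    exact absurd (Subgroup.subgroupOf_eq_top.1 h) (not_le_of_gt hlt)
  obtain ⟨s, hs, hsd⟩ := Nat.exists_prime_and_dvd hidx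
  haveI : Fact s.Prime := ⟨hs⟩
  let P : Sylow s J := default
  have hPn : (P : Subgroup J).Normal := inferInstance
  haveI hPc : (P : Subgroup J).Characteristic := P.characteristic_of_normal hPn
  let A : Subgroup H := (P : Subgroup J).map J.subtype
  have hAn : A.Normal := ConjAct.normal_of_characteristic_of_normal
  have hAJ : A ≤ J := by
    rintro _ ⟨x, _, rfl⟩
    exact x.2
  have hAp : IsPGroup s A := P.isPGroup'.map _
  have hAB : ¬ A ≤ B1 := by
    intro h
    have h1 : (P : Subgroup J) ≤ B1.subgroupOf J := by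
      intro x hx
      rw [Subgroup.mem_subgroupOf]
      exact h ⟨x, hx, rfl⟩
    have h2 := Subgroup.index_dvd_of_le h1
    exact P.not_dvd_index (hsd.trans h2)
  -- `J = A B1`
  have hJAB : A ⊔ B1 = J := by
    rcases hmax (A ⊔ B1) inferInstance le_sup_right (sup_le hAJ hlt.le) with h | h
    · exact absurd (le_sup_left.trans h.le) hAB
    · exact h
  have hls : LocSec ψ c A (A ⊓ B1) := by
    apply hloc s hs A (A ⊓ B1) hAn inferInstance _ (hAJ.trans hker) hAp
    · intro M hM hBM hMA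
      rcases hmax (M ⊔ B1) inferInstance le_sup_right (sup_le (hMA.trans hAJ) hlt.le)
        with h | h
      · left
        exact le_antisymm (le_inf hMA (le_sup_left.trans h.le)) hBM
      · right
        apply le_antisymm hMA
        intro x hx
        have h1 : x ∈ M ⊔ B1 := by rw [h]; exact hAJ hx
        rw [Subgroup.mem_sup_of_normal_right] at h1
        obtain ⟨m, hm, b, hb, hmb⟩ := h1
        have h2 : b ∈ A := by
          have : b = m⁻¹ * x := by rw [← hmb]; group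
          rw [this]
          exact A.mul_mem (A.inv_mem (hMA hm)) hx
        rw [← hmb]
        exact M.mul_mem hm (hBM ⟨h2, hb⟩)
    · refine lt_of_le_of_ne inf_le_left ?_
      intro h
      exact hAB (h ▸ inf_le_right)
  -- the quotient
  let π : H →* H ⧸ B1 := QuotientGroup.mk' B1
  have hπ : ∀ x : H, π x = 1 ↔ x ∈ B1 := fun x => QuotientGroup.eq_one_iff x
  rintro _ ⟨Δ, Δ', hdis, hc, hc', D, D', hD, hD', d, hd, d', hd', rfl⟩
  have key := hI2 (H ⧸ B1) (J.map π) (D.map π) (D'.map π)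
    (hJ.map π (QuotientGroup.mk'_surjective B1)) (by
      rintro _ ⟨x, hx, rfl⟩ _ ⟨y, hy, rfl⟩
      have h1 : x * y * x⁻¹ * y⁻¹ ∈ ⁅J, J⁆ := Subgroup.commutator_mem_commutator hx hy
      have h2 := (hπ _).2 (hcomm h1)
      rw [map_mul, map_mul, map_mul, map_inv, map_inv] at h2
      have h3 := mul_inv_eq_one.1 h2
      exact mul_inv_eq_iff_eq_mul.1 h3) (by
      rw [← Subgroup.map_commutator, hD.1]) (by
      rw [← Subgroup.map_commutator, hD'.1]) (by
      rintro _ ⟨x, hx, rfl⟩ _ ⟨y, hy, rfl⟩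
      refine ⟨x * y * x⁻¹ * y⁻¹, ?_, ?_⟩
      · apply hgen
        exact ⟨Δ, Δ', hdis, hc, hc', D, D', hD, hD', x, hx, y, hy, rfl⟩
      · rw [map_mul, map_mul, map_mul, map_inv, map_inv]) (by
      rintro _ ⟨x, hx, rfl⟩ _ ⟨y, hy, rfl⟩ _ ⟨v, hv, rfl⟩
      have h1 : v ∈ A ⊔ B1 := by rw [hJAB]; exact hv
      rw [Subgroup.mem_sup_of_normal_right] at h1
      obtain ⟨m, hm, b, hb, hmb⟩ := h1
      have h2 : π v = π m := by rw [← hmb, map_mul, (hπ b).2 hb, mul_one]
      have h3 := hls Δ Δ' hdis hc hc' D D' hD hD' x hx y hy m hm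
      have h4 := (hπ _).2 h3.2
      rw [map_mul, map_inv] at h4
      have h5 := mul_inv_eq_one.1 h4
      rw [map_mul, map_mul, map_mul, map_mul, map_mul, map_inv, map_inv, map_inv] at h5
      rw [h2]
      exact h5)
  have h1 := key (π d) ⟨d, hd, rfl⟩ (π d') ⟨d', hd', rfl⟩
  rw [← hπ, map_mul, map_mul, map_mul, h1, map_inv, map_inv]
  group

theorem pf_i3 : T_I2 → T_I3a → T_I3b → T_I3 := by
  intro hI2 hI3a hI3b
  intro H Ω _ _ _ _ ψ c hsol hloc
  obtain ⟨J, hJdef⟩ : ∃ J : Subgroup H, J = Subgroup.closure (Gen ψ c) := ⟨_, rfl⟩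
  have hJ : J.Normal := by rw [hJdef]; exact closure_normal ψ c
  have hker : J ≤ ψ.ker := by rw [hJdef]; exact closure_le_ker ψ c
  have hgen : ∀ x ∈ Gen ψ c, x ∈ J := by
    intro x hx; rw [hJdef]; exact Subgroup.subset_closure hx
  haveI hJs : Group.IsSolvable J :=
    Group.isSolvable_of_isSolvable_injective (Subgroup.inclusion_injective hker)
  have hnil : Group.IsNilpotent J := by
    apply hI3b H J hJ hJs
    intro ℓ hℓ A B hA hB hBA hAJ hAp hch
    have hls := hloc ℓ hℓ A B hA hB hBA (hAJ.trans hker) hAp hch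
    have h3 := hI3a H Ω ψ c A B hA hB hBA.le hls
    intro y hy
    rw [hJdef] at hy
    induction hy using Subgroup.closure_induction with
    | mem g hg =>
      obtain ⟨Δ, Δ', hdis, hc, hc', D, D', hD, hD', d, hd, d', hd', rfl⟩ := hg
      intro x hx
      exact h3 Δ Δ' hdis hc hc' D D' hD hD' d hd d' hd' x hx
    | one => intro x _; simp
    | mul g k _ _ h1 h2 =>
      intro x hx
      have h4 := hB.conj_mem _ (h2 x hx) g
      have h5 := B.mul_mem h4 (h1 x hx)
      have h6 : g * k * x * (g * k)⁻¹ * x⁻¹ =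
          g * (k * x * k⁻¹ * x⁻¹) * g⁻¹ * (g * x * g⁻¹ * x⁻¹) := by group
      rw [h6]; exact h5
    | inv g _ h1 =>
      intro x hx
      have h4 := B.inv_mem (hB.conj_mem _ (h1 x hx) g⁻¹)
      have h6 : g⁻¹ * x * g⁻¹⁻¹ * x⁻¹ = (g⁻¹ * (g * x * g⁻¹ * x⁻¹) * g⁻¹⁻¹)⁻¹ := by group
      rw [h6]; exact h4
  have hbot : J = ⊥ := by
    by_contra hne
    have hfin : (Set.univ : Set (Subgroup H)).Finite := Set.toFinite _
    obtain ⟨B1, hB1⟩ := (Set.toFinite {N : Subgroup H | N.Normal ∧ N < J}).exists_maximal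
      ⟨⊥, inferInstance, bot_lt_iff_ne_bot.2 hne⟩
    have hB1n : B1.Normal := hB1.1.1
    have hmax : ∀ M : Subgroup H, M.Normal → B1 ≤ M → M ≤ J → M = B1 ∨ M = J := by
      intro M hM hBM hMJ
      rcases eq_or_lt_of_le hMJ with h | h
      · right; exact h
      · left
        exact le_antisymm (hB1.2 ⟨hM, h⟩ hBM) hBM
    have h1 := step ψ c J hJ hJs hnil hker hI2 hgen hloc B1 hB1n hB1.1.2 hmax
    have h2 : J ≤ B1 := by
      rw [hJdef, Subgroup.closure_le]
      exact h1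
    exact absurd h2 (not_le_of_gt hB1.1.2)
  intro Δ Δ' hdis hc hc' D D' hD hD' d hd d' hd'
  have h1 := hgen (d * d' * d⁻¹ * d'⁻¹)
    ⟨Δ, Δ', hdis, hc, hc', D, D', hD, hD', d, hd, d', hd', rfl⟩
  rw [hbot] at h1
  exact h1

end Pool.Agent.H60.NY.I3
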